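import Pool.Agent.Q155.NB.Alg

/-!
# Job NB-PBD: the bad states have a small probability
-/

set_option autoImplicit false
set_option linter.unusedVariables false
set_option linter.unusedSectionVars false

open scoped Classical

namespace Q155.NB

open Finset Matrix
open Q155.NL (Px)
open Pool.Agent.Q1.PT (avg avg_hom avg_mono)

namespace Pb

theorem avg_sum {α ι : Type} [Fintype α] (s : Finset ι) (f : ι → α → ℝ) :
    (avg fun a => ∑ i ∈ s, f i a) = ∑ i ∈ s, avg (f i) := by
  unfold avg
  rw [Finset.sum_comm, Finset.sum_div]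

theorem card_dual {F : Type} [AddCommGroup F] [Module (ZMod 2) F] [Finite F] :
    Nat.card (F →ₗ[ZMod 2] ZMod 2) = Nat.card F := by
  have hf2 : Module.Finite (ZMod 2) F := Module.Finite.of_finite
  rw [Module.natCard_eq_pow_finrank (K := ZMod 2) (V := F),
    Module.natCard_eq_pow_finrank (K := ZMod 2) (V := F →ₗ[ZMod 2] ZMod 2)]
  congr 1
  exact Subspace.dual_finrank_eq

theorem card_fun2 (κ : Type) [Fintype κ] : Nat.card (κ → ZMod 2) = 2 ^ Fintype.card κ := by
  rw [Nat.card_fun, Nat.card_zmod, Nat.card_eq_fintype_card]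

theorem z2c (a : ZMod 2) : a + a = 0 := CharTwo.add_self_eq_zero a

theorem z2m (a : ZMod 2) : a * a = a := by
  revert a
  decide

theorem z2one (a : ZMod 2) (h : a ≠ 0) : a = 1 := by
  revert a
  decide

/-- functionals which vanish on the relations -/
theorem exists_func {F : Type} [AddCommGroup F] [Module (ZMod 2) F] {κ : Type} [Fintype κ]
    (h : κ → F) (c : κ → ZMod 2)
    (hc : ∀ w : κ → ZMod 2, ∑ k, w k • h k = 0 → ∑ k, c k * w k = 0) :
    ∃ l : F →ₗ[ZMod 2] ZMod 2, ∀ k, c k = l (h k) := by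
  let T : (κ → ZMod 2) →ₗ[ZMod 2] F := Fintype.linearCombination (ZMod 2) h
  let φ : (κ → ZMod 2) →ₗ[ZMod 2] ZMod 2 := Fintype.linearCombination (ZMod 2) c
  have h1 : φ ∈ (LinearMap.ker T).dualAnnihilator := by
    rw [Submodule.mem_dualAnnihilator]
    intro w hw
    rw [LinearMap.mem_ker, Fintype.linearCombination_apply] at hw
    have h2 := hc w hw
    rw [Fintype.linearCombination_apply]
    rw [← h2]
    exact sum_congr rfl fun k _ => by rw [smul_eq_mul, mul_comm]
  rw [← LinearMap.range_dualMap_eq_dualAnnihilator_ker] at h1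
  obtain ⟨l, hl⟩ := h1
  refine ⟨l, fun k => ?_⟩
  have h3 := LinearMap.congr_fun hl (Pi.single k 1)
  rw [LinearMap.dualMap_apply, Fintype.linearCombination_apply_single,
    Fintype.linearCombination_apply_single, one_smul, one_smul] at h3
  exact h3.symm

section
variable {G F τ ι : Type} [AddCommGroup G] [Module (ZMod 2) G] [AddCommGroup F] [Module (ZMod 2) F]
  [Fintype τ] [Fintype ι]

/-- the vectors which are supported on `V` -/
def onV (V : Finset ι) (w : V → ZMod 2) : (τ ⊕ V → ZMod 2) × G := (Sum.elim 0 w, 0)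

theorem onV_ad (D : Sd G F) (K : Bl τ ι F) (V : Finset ι) (w : V → ZMod 2)
    (hw : ∑ k, w k • K.hJ k = 0) : Ad D (ch K V) (onV V w) := by
  unfold Ad onV ch
  rw [Fintype.sum_sum_type]
  simp only [Sum.elim_inl, Pi.zero_apply, zero_smul, sum_const_zero, zero_add, Sum.elim_inr]
  rw [hw]
  exact D.𝓛.zero_mem

theorem row_inl (D : Sd G F) (K : Bl τ ι F) (V W : Finset ι) (p : Px ι)
    (x : (τ ⊕ V → ZMod 2) × G) (u : τ) : row D (ch K V) (cm K V W p) x (Sum.inl u) =
      ∑ r, K.M u r * x.1 (Sum.inl r) + ∑ k : V, K.B u k * x.1 (Sum.inr k) + D.χ x.2 (K.hU u) := by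
  unfold row cm ch
  simp only [Matrix.mulVec, dotProduct, Fintype.sum_sum_type, Matrix.fromBlocks_apply₁₁,
    Matrix.fromBlocks_apply₁₂, Matrix.of_apply, Sum.elim_inl]

theorem row_inr (D : Sd G F) (K : Bl τ ι F) (V W : Finset ι) (p : Px ι)
    (x : (τ ⊕ V → ZMod 2) × G) (k : V) : row D (ch K V) (cm K V W p) x (Sum.inr k) =
      ∑ r, K.C k r * x.1 (Sum.inl r) + ∑ l : V, (if k = l then
        K.e k + p.2 k + ∑ l ∈ W, (p.1 k l + p.1 l k + K.Θ k l)
        else p.1 k l + p.1 l k + K.Θ k l) * x.1 (Sum.inr l) + D.χ x.2 (K.hJ k) := by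
  unfold row cm ch
  simp only [Matrix.mulVec, dotProduct, Fintype.sum_sum_type, Matrix.fromBlocks_apply₂₁,
    Matrix.fromBlocks_apply₂₂, Matrix.of_apply, Sum.elim_inr]

/-- the candidates -/
def Cand (D : Sd G F) (K : Bl τ ι F) (V : Finset ι) (x : (τ ⊕ V → ZMod 2) × G) : Prop :=
  ∃ (m : τ → ZMod 2) (l : F →ₗ[ZMod 2] ZMod 2), ∀ k : V,
    D.v (K.hJ k) * x.1 (Sum.inr k) + ∑ u, m u * K.B u k = l (K.hJ k)

theorem zero_case (D : Sd G F) (K : Bl τ ι F) (V W : Finset ι) (hR : Rcp D K V) (hM : Mc K V)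
    (hL : Lg D) (p : Px ι) (κ : τ ⊕ V → ZMod 2) (hκ : κ ∈ Lk D (ch K V) (cm K V W p))
    (x : (τ ⊕ V → ZMod 2) × G) (hx : x ∈ Sol D (ch K V) (cm K V W p))
    (he : ∀ j : V, κ (Sum.inr j) + x.1 (Sum.inr j) = 0) (h0 : ∀ j : V, x.1 (Sum.inr j) = 0) :
    κ = 0 ∧ x = 0 := by
  have hκ0 : ∀ j : V, κ (Sum.inr j) = 0 := by
    intro j
    have h := he j
    rwa [h0 j, add_zero] at h
  constructor
  · -- κ = 0
    have h1 : ∀ w : V → ZMod 2, ∑ k, w k • K.hJ k = 0 →
        ∑ k : V, (∑ u, κ (Sum.inl u) * K.B u k) * w k = 0 := by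
      intro w hw
      have h2 := hκ _ (onV_ad D K V w hw)
      rw [Fintype.sum_sum_type] at h2
      simp only [hκ0, zero_mul, sum_const_zero, add_zero] at h2
      have h3 : ∀ u : τ, row D (ch K V) (cm K V W p) (onV V w) (Sum.inl u) =
          ∑ k : V, K.B u k * w k := by
        intro u
        rw [row_inl]
        simp only [onV, Sum.elim_inl, Pi.zero_apply, mul_zero, sum_const_zero, zero_add,
          Sum.elim_inr, map_zero, LinearMap.zero_apply, add_zero]
      simp only [h3] at h2
      rw [← h2]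
      simp only [sum_mul, mul_sum]
      rw [sum_comm]
      exact sum_congr rfl fun u _ => sum_congr rfl fun k _ => by ring
    obtain ⟨l, hl⟩ := exists_func _ _ h1
    have h4 := hM (fun u => κ (Sum.inl u)) (l + (∑ u, κ (Sum.inl u) * D.v (K.hU u)) • D.v) (by
      intro k hk
      have h5 := hl ⟨k, hk⟩
      simp only at h5
      have h6 : ∀ u, K.C k u = K.B u k + D.v (K.hU u) * D.v (K.hJ k) := by
        intro u
        have h7 := hR.uj u k hk
        linear_combination h7 + (-1 : ZMod 2) * z2c (K.B u k)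
      simp only [h6, mul_add, sum_add_distrib, LinearMap.add_apply, LinearMap.smul_apply,
        smul_eq_mul]
      rw [h5, sum_mul]
      have h8 : ∑ x, κ (Sum.inl x) * (D.v (K.hU x) * D.v (K.hJ k)) =
          ∑ i, κ (Sum.inl i) * D.v (K.hU i) * D.v (K.hJ k) :=
        sum_congr rfl fun u _ => by ring
      rw [h8]
      linear_combination z2c (l (K.hJ k)) + z2c (∑ i, κ (Sum.inl i) * D.v (K.hU i) * D.v (K.hJ k)))
    funext i
    rcases i with u | k
    · exact congrFun h4.1 u
    · exact hκ0 k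
  · -- x = 0
    have h1 := hM (fun u => x.1 (Sum.inl u)) (D.χ x.2) (by
      intro k hk
      have h2 := hx.2 (Sum.inr ⟨k, hk⟩)
      rw [row_inr] at h2
      simp only [h0, mul_zero, sum_const_zero, add_zero] at h2
      rw [← h2]
      congr 1
      exact sum_congr rfl fun u _ => mul_comm _ _)
    have h2 : x.1 = 0 := by
      funext i
      rcases i with u | k
      · exact congrFun h1.1 u
      · exact h0 k
    have h3 := hx.1
    unfold Ad at h3
    rw [h2] at h3
    simp only [Pi.zero_apply, zero_smul, sum_const_zero] at h3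
    exact Prod.ext h2 (hL _ _ h3 h1.2)

theorem cand_of_bad (D : Sd G F) (K : Bl τ ι F) (V W : Finset ι) (hR : Rcp D K V)
    (p : Px ι) (κ : τ ⊕ V → ZMod 2) (hκ : κ ∈ Lk D (ch K V) (cm K V W p))
    (x : (τ ⊕ V → ZMod 2) × G) (hx : x ∈ Sol D (ch K V) (cm K V W p))
    (he : ∀ j : V, κ (Sum.inr j) + x.1 (Sum.inr j) = 0) : Cand D K V x := by
  have hκ0 : ∀ j : V, κ (Sum.inr j) = x.1 (Sum.inr j) := by
    intro j
    linear_combination he j + (-1 : ZMod 2) * z2c (x.1 (Sum.inr j))
  set A : V → V → ZMod 2 := fun k l => if k = l then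
        K.e k + p.2 k + ∑ l ∈ W, (p.1 k l + p.1 l k + K.Θ k l)
        else p.1 k l + p.1 l k + K.Θ k l with hA
  have hAs : ∀ k l : V, A k l + A l k = D.v (K.hJ k) * D.v (K.hJ l) +
      (if k = l then D.v (K.hJ k) else 0) := by
    intro k l
    by_cases h : k = l
    · subst h
      rw [if_pos rfl, z2c, z2m, z2c]
    · have h' : ¬ l = k := fun h1 => h h1.symm
      have hne : (k : ι) ≠ l := fun h1 => h (Subtype.ext h1)
      rw [if_neg h, hA]
      simp only [if_neg h, if_neg h']
      have h1 := hR.jj k k.2 l l.2 hne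
      linear_combination h1 + z2c (p.1 k l) + z2c (p.1 l k)
  have key : ∀ w : V → ZMod 2, ∑ k, w k • K.hJ k = 0 →
      ∑ k : V, (D.v (K.hJ k) * x.1 (Sum.inr k) +
        ∑ u, (κ (Sum.inl u) + x.1 (Sum.inl u)) * K.B u k) * w k = 0 := by
    intro w hw
    have hv : ∑ k : V, D.v (K.hJ k) * w k = 0 := by
      have h1 : D.v (∑ k : V, w k • K.hJ k) = 0 := by rw [hw, map_zero]
      rw [map_sum] at h1
      rw [← h1]
      exact sum_congr rfl fun k _ => by rw [map_smul, smul_eq_mul, mul_comm]
    have hχ : ∑ k : V, D.χ x.2 (K.hJ k) * w k = 0 := by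
      have h1 : D.χ x.2 (∑ k : V, w k • K.hJ k) = 0 := by rw [hw, map_zero]
      rw [map_sum] at h1
      rw [← h1]
      exact sum_congr rfl fun k _ => by rw [map_smul, smul_eq_mul, mul_comm]
    -- the relation
    have h2 := hκ _ (onV_ad D K V w hw)
    rw [Fintype.sum_sum_type] at h2
    have h3 : ∀ u : τ, row D (ch K V) (cm K V W p) (onV V w) (Sum.inl u) =
        ∑ k : V, K.B u k * w k := by
      intro u
      rw [row_inl]
      simp only [onV, Sum.elim_inl, Pi.zero_apply, mul_zero, sum_const_zero, zero_add,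
        Sum.elim_inr, map_zero, LinearMap.zero_apply, add_zero]
    have h4 : ∀ k : V, row D (ch K V) (cm K V W p) (onV V w) (Sum.inr k) =
        ∑ l : V, A k l * w l := by
      intro k
      rw [row_inr]
      simp only [onV, Sum.elim_inl, Pi.zero_apply, mul_zero, sum_const_zero, zero_add,
        Sum.elim_inr, map_zero, LinearMap.zero_apply, add_zero, hA]
    simp only [h3, h4, hκ0] at h2
    -- the solution
    have h5 : ∀ k : V, ∑ u, K.C k u * x.1 (Sum.inl u) + ∑ l : V, A k l * x.1 (Sum.inr l) +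
        D.χ x.2 (K.hJ k) = 0 := by
      intro k
      have h6 := hx.2 (Sum.inr k)
      rw [row_inr] at h6
      exact h6
    have h6 : ∑ k : V, (∑ u, K.C k u * x.1 (Sum.inl u) + ∑ l : V, A k l * x.1 (Sum.inr l) +
        D.χ x.2 (K.hJ k)) * w k = 0 := by
      refine sum_eq_zero fun k _ => ?_
      rw [h5 k, zero_mul]
    simp only [add_mul, sum_add_distrib] at h6
    rw [hχ, add_zero] at h6
    -- the transposed sum
    have h7 : ∑ k : V, (∑ l : V, A k l * x.1 (Sum.inr l)) * w k =
        ∑ k : V, x.1 (Sum.inr k) * ∑ l : V, A l k * w l := by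
      simp only [sum_mul, mul_sum]
      rw [sum_comm]
      exact sum_congr rfl fun k _ => sum_congr rfl fun l _ => by ring
    have h8 : ∑ k : V, x.1 (Sum.inr k) * ∑ l : V, A k l * w l +
        ∑ k : V, x.1 (Sum.inr k) * ∑ l : V, A l k * w l =
        ∑ k : V, (D.v (K.hJ k) * x.1 (Sum.inr k)) * w k := by
      rw [← sum_add_distrib]
      have h9 : ∀ k : V, x.1 (Sum.inr k) * ∑ l : V, A k l * w l +
          x.1 (Sum.inr k) * ∑ l : V, A l k * w l =
          x.1 (Sum.inr k) * (D.v (K.hJ k) * ∑ l : V, D.v (K.hJ l) * w l) +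
            (D.v (K.hJ k) * x.1 (Sum.inr k)) * w k := by
        intro k
        rw [← mul_add, ← sum_add_distrib]
        have h10 : ∑ l : V, (A k l * w l + A l k * w l) =
            D.v (K.hJ k) * ∑ l : V, D.v (K.hJ l) * w l + D.v (K.hJ k) * w k := by
          have h11 : ∀ l : V, A k l * w l + A l k * w l =
              D.v (K.hJ k) * (D.v (K.hJ l) * w l) + (if k = l then D.v (K.hJ k) * w l else 0) := by
            intro l
            have h12 := hAs k l
            by_cases h : k = l
            · rw [if_pos h] at h12 ⊢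
              linear_combination w l * h12
            · rw [if_neg h] at h12 ⊢
              linear_combination w l * h12
          rw [sum_congr rfl fun l _ => h11 l, sum_add_distrib, ← mul_sum,
            Fintype.sum_ite_eq]
        rw [h10]
        ring
      rw [sum_congr rfl fun k _ => h9 k, sum_add_distrib]
      rw [hv]
      simp only [mul_zero, sum_const_zero, zero_add]
    -- the reciprocity law
    have h13 : ∑ k : V, (∑ u, K.C k u * x.1 (Sum.inl u)) * w k =
        ∑ u, x.1 (Sum.inl u) * ∑ k : V, K.B u k * w k := by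
      have h14 : ∀ k : V, (∑ u, K.C k u * x.1 (Sum.inl u)) * w k =
          ∑ u, x.1 (Sum.inl u) * (K.B u k * w k) +
            (∑ u, x.1 (Sum.inl u) * D.v (K.hU u)) * (D.v (K.hJ k) * w k) := by
        intro k
        rw [sum_mul, sum_mul, ← sum_add_distrib]
        refine sum_congr rfl fun u _ => ?_
        have h15 := hR.uj u k k.2
        linear_combination (x.1 (Sum.inl u) * w k) * h15 +
          (-1 : ZMod 2) * z2c (x.1 (Sum.inl u) * w k * K.B u k)
      rw [sum_congr rfl fun k _ => h14 k, sum_add_distrib, ← mul_sum, hv, mul_zero, add_zero,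
        sum_comm]
      exact sum_congr rfl fun u _ => by rw [mul_sum]
    -- together
    have h16 : ∑ k : V, (D.v (K.hJ k) * x.1 (Sum.inr k) +
        ∑ u, (κ (Sum.inl u) + x.1 (Sum.inl u)) * K.B u k) * w k =
        ∑ k : V, (D.v (K.hJ k) * x.1 (Sum.inr k)) * w k +
        (∑ u, κ (Sum.inl u) * ∑ k : V, K.B u k * w k +
          ∑ u, x.1 (Sum.inl u) * ∑ k : V, K.B u k * w k) := by
      simp only [add_mul, sum_add_distrib]
      congr 1
      simp only [sum_mul, mul_sum, mul_assoc]
      congr 1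
      · rw [sum_comm]
      · rw [sum_comm]
    rw [h16, ← h8, ← h13, ← h7]
    linear_combination h2 + h6
  obtain ⟨l, hl⟩ := exists_func _ _ key
  exact ⟨_, l, hl⟩

/-- the linear part of the rows -/
noncomputable def lin (V W : Finset ι) (w : V → ZMod 2) : Px ι →+ (V → ZMod 2) where
  toFun p := fun k => ∑ l : V, (if k = l then p.2 k + ∑ l ∈ W, (p.1 k l + p.1 l k)
    else p.1 k l + p.1 l k) * w l
  map_zero' := by
    funext k
    show (∑ l : V, (if k = l then (0 : Px ι).2 k + ∑ l ∈ W, ((0 : Px ι).1 k l + (0 : Px ι).1 l k)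
      else (0 : Px ι).1 k l + (0 : Px ι).1 l k) * w l) = (0 : ZMod 2)
    refine sum_eq_zero fun l _ => ?_
    by_cases h : k = l
    · rw [if_pos h]
      simp
    · rw [if_neg h]
      simp
  map_add' p q := by
    funext k
    show (_ : ZMod 2) = (∑ l : V, (_ : ZMod 2)) + ∑ l : V, (_ : ZMod 2)
    rw [← sum_add_distrib]
    refine sum_congr rfl fun l _ => ?_
    by_cases h : k = l
    · simp only [if_pos h, Prod.snd_add, Prod.fst_add, Pi.add_apply, sum_add_distrib]
      ring
    · simp only [if_neg h, Prod.fst_add, Pi.add_apply]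
      ring

theorem lin_surj (V W : Finset ι) (w : V → ZMod 2) (hw : ∃ l0, w l0 ≠ 0) :
    Function.Surjective (lin V W w) := by
  obtain ⟨l0, hl0⟩ := hw
  have hl1 := z2one _ hl0
  intro t
  let A : ι → ι → ZMod 2 := fun k l => if h : k ∈ V then
    (if w ⟨k, h⟩ = 0 ∧ l = l0 then t ⟨k, h⟩ else 0) else 0
  let R : V → ZMod 2 := fun k => ∑ l : V, (if k = l then ∑ l ∈ W, (A k l + A l k)
    else A k l + A l k) * w l
  refine ⟨(A, fun k => if h : k ∈ V then t ⟨k, h⟩ + R ⟨k, h⟩ else 0), ?_⟩
  funext k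
  show ∑ l : V, (if k = l then (if h : (k : ι) ∈ V then t ⟨k, h⟩ + R ⟨k, h⟩ else 0) +
    ∑ l ∈ W, (A k l + A l k) else A k l + A l k) * w l = t k
  have h1 : ∀ l : V, (if k = l then (if h : (k : ι) ∈ V then t ⟨k, h⟩ + R ⟨k, h⟩ else 0) +
    ∑ l ∈ W, (A k l + A l k) else A k l + A l k) * w l =
      (if k = l then (t k + R k) * w l else 0) +
      (if k = l then ∑ l ∈ W, (A k l + A l k) else A k l + A l k) * w l := by
    intro l
    by_cases h : k = l
    · rw [if_pos h, if_pos h, if_pos h, dif_pos k.2]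
      ring
    · rw [if_neg h, if_neg h, if_neg h, zero_add]
  rw [sum_congr rfl fun l _ => h1 l, sum_add_distrib, Fintype.sum_ite_eq]
  show (t k + R k) * w k + R k = t k
  by_cases hk : w k = 0
  · rw [hk, mul_zero, zero_add]
    have hkl : k ≠ l0 := by
      intro h
      rw [h] at hk
      exact hl0 hk
    show ∑ l : V, (if k = l then ∑ l ∈ W, (A k l + A l k) else A k l + A l k) * w l = t k
    rw [sum_eq_single l0]
    · rw [if_neg hkl, hl1, mul_one]
      have e1 : A k l0 = t k := by
        show (if h : (k : ι) ∈ V then (if w ⟨k, h⟩ = 0 ∧ (l0 : ι) = l0 then t ⟨k, h⟩ else 0)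
          else 0) = _
        rw [dif_pos k.2, if_pos ⟨hk, rfl⟩]
      have e2 : A l0 k = 0 := by
        show (if h : (l0 : ι) ∈ V then (if w ⟨l0, h⟩ = 0 ∧ (k : ι) = l0 then t ⟨l0, h⟩ else 0)
          else 0) = _
        rw [dif_pos l0.2, if_neg]
        rintro ⟨h, -⟩
        exact hl0 h
      rw [e1, e2, add_zero]
    · intro l _ hl
      by_cases h : k = l
      · rw [← h, hk, mul_zero]
      · rw [if_neg h]
        have e1 : A k l = 0 := by
          show (if h : (k : ι) ∈ V then (if w ⟨k, h⟩ = 0 ∧ (l : ι) = l0 then t ⟨k, h⟩ else 0)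
            else 0) = _
          rw [dif_pos k.2, if_neg]
          rintro ⟨-, h⟩
          exact hl (Subtype.ext h)
        have e2 : A l k = 0 := by
          show (if h : (l : ι) ∈ V then (if w ⟨l, h⟩ = 0 ∧ (k : ι) = l0 then t ⟨l, h⟩ else 0)
            else 0) = _
          rw [dif_pos l.2, if_neg]
          rintro ⟨-, h⟩
          exact hkl (Subtype.ext h)
        rw [e1, e2, add_zero, zero_mul]
    · intro h
      exact absurd (mem_univ _) h
  · rw [z2one _ hk, mul_one, add_assoc, z2c, add_zero]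

/-- the probability that the rows of `V` vanish -/
theorem prob_rows (D : Sd G F) (K : Bl τ ι F) (V W : Finset ι) (x : (τ ⊕ V → ZMod 2) × G)
    (hw : ∃ l0 : V, x.1 (Sum.inr l0) ≠ 0) :
    avg (fun p : Px ι => if (∀ k : V, row D (ch K V) (cm K V W p) x (Sum.inr k) = 0) then (1 : ℝ)
      else 0) = 1 / 2 ^ V.card := by
  let c : V → ZMod 2 := fun k => row D (ch K V) (cm K V W 0) x (Sum.inr k)
  have h1 : ∀ (p : Px ι) (k : V), row D (ch K V) (cm K V W p) x (Sum.inr k) =
      lin V W (fun k => x.1 (Sum.inr k)) p k + c k := by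
    intro p k
    show _ = (∑ l : V, _) + row D (ch K V) (cm K V W 0) x (Sum.inr k)
    rw [row_inr, row_inr]
    have h2 : ∀ l : V, (if k = l then K.e k + p.2 k + ∑ l ∈ W, (p.1 k l + p.1 l k + K.Θ k l)
        else p.1 k l + p.1 l k + K.Θ k l) * x.1 (Sum.inr l) =
        (if k = l then p.2 k + ∑ l ∈ W, (p.1 k l + p.1 l k) else p.1 k l + p.1 l k) *
          x.1 (Sum.inr l) +
        (if k = l then K.e k + (0 : Px ι).2 k + ∑ l ∈ W, ((0 : Px ι).1 k l + (0 : Px ι).1 l k +
          K.Θ k l) else (0 : Px ι).1 k l + (0 : Px ι).1 l k + K.Θ k l) * x.1 (Sum.inr l) := by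
      intro l
      by_cases h : k = l
      · simp only [if_pos h, Prod.snd_zero, Prod.fst_zero, Pi.zero_apply, sum_add_distrib,
          sum_const_zero]
        ring
      · simp only [if_neg h, Prod.fst_zero, Pi.zero_apply]
        ring
    rw [sum_congr rfl fun l _ => h2 l, sum_add_distrib]
    ring
  have h3 : (fun p : Px ι => if (∀ k : V, row D (ch K V) (cm K V W p) x (Sum.inr k) = 0) then
      (1 : ℝ) else 0) = fun p => (fun y : V → ZMod 2 => if y = c then (1 : ℝ) else 0)
        (lin V W (fun k => x.1 (Sum.inr k)) p) := by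
    funext p
    show _ = if lin V W (fun k => x.1 (Sum.inr k)) p = c then (1 : ℝ) else 0
    have h4 : (∀ k : V, row D (ch K V) (cm K V W p) x (Sum.inr k) = 0) ↔
        lin V W (fun k => x.1 (Sum.inr k)) p = c := by
      constructor
      · intro h
        funext k
        have h5 := h k
        rw [h1] at h5
        linear_combination h5 + (-1 : ZMod 2) * z2c (c k)
      · intro h k
        rw [h1, h]
        exact z2c _
    by_cases h : lin V W (fun k => x.1 (Sum.inr k)) p = c
    · rw [if_pos h, if_pos (h4.2 h)]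
    · rw [if_neg h, if_neg fun h' => h (h4.1 h')]
  rw [h3, avg_hom (lin V W fun k => x.1 (Sum.inr k)) (lin_surj V W _ hw)
    (fun y : V → ZMod 2 => if y = c then (1 : ℝ) else 0)]
  unfold avg
  rw [sum_ite_eq' univ c, if_pos (mem_univ _)]
  congr 1
  rw [Fintype.card_fun, ZMod.card, Fintype.card_coe]
  push_cast
  rfl

/-- the number of the candidates -/
theorem card_cand [Finite G] [Finite F] (D : Sd G F) (K : Bl τ ι F) (V : Finset ι) :
    Nat.card {x : (τ ⊕ V → ZMod 2) × G // Cand D K V x} *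
      2 ^ (V.filter fun k => D.v (K.hJ k) ≠ 0).card ≤
      Nat.card F * Nat.card G * 4 ^ Fintype.card τ * 2 ^ V.card := by
  have hf2 : Module.Finite (ZMod 2) F := Module.Finite.of_finite
  have hfh : Finite (F →ₗ[ZMod 2] ZMod 2) := by
    refine Nat.finite_of_card_ne_zero ?_
    rw [card_dual]
    exact Nat.card_pos.ne'
  have hex : ∀ x : {x : (τ ⊕ V → ZMod 2) × G // Cand D K V x},
      ∃ q : (τ → ZMod 2) × (F →ₗ[ZMod 2] ZMod 2), ∀ k : V,
        D.v (K.hJ k) * x.1.1 (Sum.inr k) + ∑ u, q.1 u * K.B u k = q.2 (K.hJ k) := by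
    rintro ⟨x, m, l, h⟩
    exact ⟨(m, l), h⟩
  choose q hq using hex
  let Φ : {x : (τ ⊕ V → ZMod 2) × G // Cand D K V x} →
      (((τ → ZMod 2) × (F →ₗ[ZMod 2] ZMod 2)) × ((τ → ZMod 2) × G)) ×
        ({k : V // D.v (K.hJ k) = 0} → ZMod 2) := fun x =>
    ((q x, (fun u => x.1.1 (Sum.inl u), x.1.2)), fun k => x.1.1 (Sum.inr k.1))
  have hinj : Function.Injective Φ := by
    intro x y h
    have e1 : q x = q y := congrArg (fun t => t.1.1) h
    have e2 : (fun u => x.1.1 (Sum.inl u)) = fun u => y.1.1 (Sum.inl u) :=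
      congrArg (fun t => t.1.2.1) h
    have e3 : x.1.2 = y.1.2 := congrArg (fun t => t.1.2.2) h
    have e4 : (fun k : {k : V // D.v (K.hJ k) = 0} => x.1.1 (Sum.inr k.1)) =
        fun k => y.1.1 (Sum.inr k.1) := congrArg (fun t => t.2) h
    refine Subtype.ext (Prod.ext ?_ e3)
    funext i
    rcases i with u | k
    · exact congrFun e2 u
    · by_cases hk : D.v (K.hJ k) = 0
      · exact congrFun e4 ⟨k, hk⟩
      · have hk1 := z2one _ hk
        have h1 := hq x k
        have h2 := hq y k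
        rw [hk1, one_mul] at h1 h2
        rw [e1] at h1
        linear_combination h1 - h2
  have h1 := Nat.card_le_card_of_injective Φ hinj
  rw [Nat.card_prod, Nat.card_prod, Nat.card_prod, Nat.card_prod, card_dual, card_fun2,
    card_fun2] at h1
  have h2 : Fintype.card {k : V // D.v (K.hJ k) = 0} +
      (V.filter fun k => D.v (K.hJ k) ≠ 0).card = V.card := by
    have h3 : Fintype.card {k : V // D.v (K.hJ k) = 0} =
        (V.filter fun k => D.v (K.hJ k) = 0).card := by
      rw [← Fintype.card_coe]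
      refine Fintype.card_congr ⟨fun k => ⟨k.1.1, mem_filter.2 ⟨k.1.2, k.2⟩⟩,
        fun k => ⟨⟨k.1, (mem_filter.1 k.2).1⟩, (mem_filter.1 k.2).2⟩, fun _ => rfl, fun _ => rfl⟩
    rw [h3]
    exact Finset.card_filter_add_card_filter_not _
  calc _ ≤ (2 ^ Fintype.card τ * Nat.card F * (2 ^ Fintype.card τ * Nat.card G) *
        2 ^ Fintype.card {k : V // D.v (K.hJ k) = 0}) *
        2 ^ (V.filter fun k => D.v (K.hJ k) ≠ 0).card := Nat.mul_le_mul_right _ h1
    _ = _ := by
      have h4 : (4 : ℕ) ^ Fintype.card τ = 2 ^ Fintype.card τ * 2 ^ Fintype.card τ := by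
        rw [← mul_pow]
        norm_num
      rw [← h2, h4]
      ring

end

end Pb

open Pb in
theorem pbd : S_PBD := by
  intro G F _ _ _ _ _ _ D τ ι _ _ K V W hR hM hL
  have hFG : Fintype G := Fintype.ofFinite G
  set S : Finset ((τ ⊕ V → ZMod 2) × G) := univ.filter fun x => Cand D K V x with hS
  set S' := S.filter fun x => ∃ l0 : V, x.1 (Sum.inr l0) ≠ 0 with hS'
  have h1 : ∀ p : Px ι, (if BadS D (ch K V) (cm K V W p) then (1 : ℝ) else 0) ≤
      ∑ x ∈ S', if (∀ k : V, row D (ch K V) (cm K V W p) x (Sum.inr k) = 0) then (1 : ℝ)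
      else 0 := by
    intro p
    have hnn : ∀ x ∈ S', (0 : ℝ) ≤ if (∀ k : V, row D (ch K V) (cm K V W p) x (Sum.inr k) = 0) then
        (1 : ℝ) else 0 := by
      intro x _
      split_ifs
      · exact zero_le_one
      · exact le_rfl
    by_cases hb : BadS D (ch K V) (cm K V W p)
    · rw [if_pos hb]
      obtain ⟨κ, hκ, x, hx, he, hne⟩ := hb
      have h2 : ∃ l0 : V, x.1 (Sum.inr l0) ≠ 0 := by
        by_contra hcon
        push Not at hcon
        exact hne (zero_case D K V W hR hM hL p κ hκ x hx he hcon)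
      have hxS : x ∈ S' := mem_filter.2 ⟨mem_filter.2 ⟨mem_univ _,
        cand_of_bad D K V W hR p κ hκ x hx he⟩, h2⟩
      refine le_trans ?_ (single_le_sum hnn hxS)
      rw [if_pos fun k => hx.2 _]
    · rw [if_neg hb]
      exact sum_nonneg hnn
  have h2 := avg_mono h1
  rw [avg_sum] at h2
  have h3 : ∑ x ∈ S', avg (fun p : Px ι => if (∀ k : V, row D (ch K V) (cm K V W p) x (Sum.inr k)
      = 0) then (1 : ℝ) else 0) = S'.card * (1 / 2 ^ V.card) := by
    rw [sum_congr rfl fun x hx => prob_rows D K V W x (mem_filter.1 hx).2, sum_const, nsmul_eq_mul]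
  rw [h3] at h2
  refine h2.trans ?_
  have h4 : S'.card ≤ Nat.card {x : (τ ⊕ V → ZMod 2) × G // Cand D K V x} := by
    rw [Nat.card_eq_fintype_card, Fintype.card_subtype]
    exact card_le_card (filter_subset _ _)
  have h5 := card_cand D K V
  have h6 : (S'.card : ℝ) * 2 ^ (V.filter fun k => D.v (K.hJ k) ≠ 0).card ≤
      (Nat.card F * Nat.card G * 4 ^ Fintype.card τ : ℝ) * 2 ^ V.card := by
    have h7 := (Nat.mul_le_mul_right (2 ^ (V.filter fun k => D.v (K.hJ k) ≠ 0).card) h4).trans h5
    exact_mod_cast h7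
  rw [mul_one_div, div_le_div_iff₀ (by positivity) (by positivity)]
  exact h6

end Q155.NB
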